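import Pool.Agent.H640.Chr.Grp

set_option autoImplicit false

/-!
# Characters of groups with finitely many conjugacy classes

A monster of type (6) is an infinite finitely generated group with finitely many conjugacy classes. We consider
more generally all groups `G` with finitely many conjugacy classes of elements of infinite order, and their
unitary representations of finite type.

Let `φ` be a character of `G`, that is, a positive definite function which is constant on the conjugacy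
classes. By the construction of Gelfand, Naimark and Segal the characters are the functions `g ↦ ⟪ξ, π g ξ⟫` where `π` is
a unitary representation of `G` and `ξ` a *trace vector*: `⟪ξ, π (h g h⁻¹) ξ⟫ = ⟪ξ, π g ξ⟫`.

**Theorem.** There is a number `L ≥ 1`, which depends only on `G`, such that for all `g ∈ G` of infinite order and all
characters `φ`, with `b = g ^ L`:

1. `φ` is constant on the nontrivial powers of `b`: `φ(b ^ n) = φ(b) = ‖P ξ‖ ^ 2 ≥ 0` for all `n ≠ 0`, where `P` is the projection to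
   the vectors fixed by `b` (although the powers of `b` may be in different conjugacy classes);
2. `φ(g ^ L) = φ(g' ^ L)` if `g` and `g'` have a common nontrivial power, and then `g ^ L` and `g' ^ L` have the same fixed
   vectors in the cyclic space of `ξ`; in particular
3. `φ` is constant on the nontrivial elements of each subgroup isomorphic to `ℚ` (a monster of type (6) which
   is not of type (2) has such subgroups);
4. for each translate `x = π h ξ` of `ξ` the translates `π (b ^ n) (x - P x)`, `n ∈ ℤ`, are orthogonal to each other: the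
   representation of `⟨b⟩` in the space generated by the translates of `ξ` is generated by fixed vectors and by copies
   of the regular representation of `ℤ`; so
5. `π b` has no eigenvalue `≠ 1` there, and
6. each vector which is fixed by some power `b ^ n`, `n ≠ 0`, is fixed by `b`.

So in every representation of a monster of type (6) which generates a finite von Neumann algebra the elements `g ^ L`
are direct sums of an identity and of a Haar unitary.

Proof. The maps `C ↦ C ^ m` of the finite set of the conjugacy classes of elements of infinite order commute and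
they are permutations of the least set of the form `{C ^ L}`. So for some `r ≥ 1` all elements `b = g ^ L` are
conjugate to `b ^ (m ^ r)` for all `m ≥ 1`, and the function `f(n) = φ(b ^ n)` satisfies `f(n m ^ r) = f(n)`. Let `η` be the part
of `ξ` which is orthogonal to the vectors fixed by some power of `b`. By the polynomial mean ergodic theorem the means of
`⟪ξ, π (b ^ (n (N m) ^ r)) η⟫` over `m` tend to zero (we prove this with a lemma of van der Corput for an invariant
mean), and so, for `N = 1!, 2!, …`, `f(n) = ‖ξ - η‖ ^ 2` for all `n ≠ 0`.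
-/

namespace Pool.Agent.Results.MP_65b575_al.Characters

open Pool.Agent.H640.Chr

universe u v

/-- The closed subspace generated by the translates of `ξ`. -/
noncomputable def cyclicSpace {G : Type u} [Group G] {H : Type v} [NormedAddCommGroup H] [InnerProductSpace ℂ H]
    (π : G →* (H ≃ₗᵢ[ℂ] H)) (ξ : H) : Submodule ℂ H :=
  (Submodule.span ℂ (Set.range fun h : G => π h ξ)).topologicalClosure

/-- The projection to the vectors fixed by `π g`. -/
noncomputable def P {G : Type u} [Group G] {H : Type v} [NormedAddCommGroup H] [InnerProductSpace ℂ H]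
    [CompleteSpace H] (π : G →* (H ≃ₗᵢ[ℂ] H)) (g : G) : H →L[ℂ] H :=
  (fixed (π g)).starProjection

open scoped InnerProductSpace

section
variable {G : Type u} [Group G] {H : Type v} [NormedAddCommGroup H] [InnerProductSpace ℂ H] [CompleteSpace H]

theorem P_mem (π : G →* (H ≃ₗᵢ[ℂ] H)) (g : G) (x : H) : P π g x ∈ fixed (π g) :=
  Submodule.starProjection_apply_mem _ x

theorem sub_P_mem (π : G →* (H ≃ₗᵢ[ℂ] H)) (g : G) (x : H) : x - P π g x ∈ (fixed (π g))ᗮ :=
  Submodule.sub_starProjection_mem_orthogonal x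

theorem decomp (π : G →* (H ≃ₗᵢ[ℂ] H)) (g : G) (x : H) : x = P π g x + (x - P π g x) := by abel

omit [CompleteSpace H] in
theorem eq_zero_of_orth {π : G →* (H ≃ₗᵢ[ℂ] H)} {ξ η : H} (hη : η ∈ cyclicSpace π ξ)
    (h : ∀ x : G, ⟪η, π x ξ⟫_ℂ = 0) : η = 0 := by
  have h1 : cyclicSpace π ξ ≤ (Submodule.span ℂ {η})ᗮ := by
    refine Submodule.topologicalClosure_minimal _ ?_ (Submodule.isClosed_orthogonal _)
    rw [Submodule.span_le]
    rintro _ ⟨x, rfl⟩
    exact Submodule.mem_orthogonal_singleton_iff_inner_right.2 (h x)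
  have h2 := Submodule.mem_orthogonal_singleton_iff_inner_right.1 (h1 hη)
  exact inner_self_eq_zero.1 h2

end

section
variable {G : Type u} [Group G] {H : Type v} [NormedAddCommGroup H] [InnerProductSpace ℂ H]

/-- the function `φ` -/
noncomputable def φ (π : G →* (H ≃ₗᵢ[ℂ] H)) (ξ : H) (g : G) : ℂ := ⟪ξ, π g ξ⟫_ℂ

/-- `ξ` is a trace vector. -/
def IsTrace (π : G →* (H ≃ₗᵢ[ℂ] H)) (ξ : H) : Prop := ∀ g h : G, φ π ξ (h * g * h⁻¹) = φ π ξ g

/-- (2) `φ (g ^ L) = φ (g' ^ L)` if `g`, `g'` have a common power, and the fixed vectors are the same -/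
def CommonPowers (L : ℕ) (π : G →* (H ≃ₗᵢ[ℂ] H)) (ξ : H) : Prop :=
  ∀ g g' : G, ¬ IsOfFinOrder g → (∃ i j : ℤ, i ≠ 0 ∧ j ≠ 0 ∧ g ^ i = g' ^ j) →
    φ π ξ (g ^ L) = φ π ξ (g' ^ L) ∧ ∀ η ∈ cyclicSpace π ξ, π (g ^ L) η = η ↔ π (g' ^ L) η = η

/-- (3) `φ` is constant on the nontrivial elements of the subgroups isomorphic to `ℚ`. -/
def RationalSubgroups (π : G →* (H ≃ₗᵢ[ℂ] H)) (ξ : H) : Prop :=
  ∀ f : Multiplicative ℚ →* G, Function.Injective f → ∀ x y, x ≠ 1 → y ≠ 1 → φ π ξ (f x) = φ π ξ (f y)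

/-- (5) all eigenvectors of `π (g ^ L)` in the cyclic space are fixed vectors. -/
def Eigenvectors (L : ℕ) (π : G →* (H ≃ₗᵢ[ℂ] H)) (ξ : H) : Prop :=
  ∀ g : G, ¬ IsOfFinOrder g → ∀ η ∈ cyclicSpace π ξ, ∀ z : ℂ, π (g ^ L) η = z • η → z = 1 ∨ η = 0

/-- (6) the vectors of the cyclic space which are fixed by a power of `g ^ L` are fixed by `g ^ L`. -/
def Periodic (L : ℕ) (π : G →* (H ≃ₗᵢ[ℂ] H)) (ξ : H) : Prop :=
  ∀ g : G, ¬ IsOfFinOrder g → ∀ n : ℤ, n ≠ 0 → ∀ η ∈ cyclicSpace π ξ, π ((g ^ L) ^ n) η = η →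
    π (g ^ L) η = η

variable [CompleteSpace H]

/-- (1) the values on the powers of `g ^ L` -/
def Values (L : ℕ) (π : G →* (H ≃ₗᵢ[ℂ] H)) (ξ : H) : Prop :=
  ∀ g : G, ¬ IsOfFinOrder g → ∀ n : ℤ, n ≠ 0 → φ π ξ ((g ^ L) ^ n) = ((‖P π (g ^ L) ξ‖ ^ 2 : ℝ) : ℂ)

/-- `x - P x` -/
noncomputable def Q (π : G →* (H ≃ₗᵢ[ℂ] H)) (g : G) (x : H) : H := x - P π g x

/-- (4) the translates of `x - P x` by the powers of `g ^ L` are orthogonal to each other, for all translates `x` of
`ξ`. -/
def Orthogonality (L : ℕ) (π : G →* (H ≃ₗᵢ[ℂ] H)) (ξ : H) : Prop :=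
  ∀ g : G, ¬ IsOfFinOrder g → ∀ h : G, ∀ m n : ℤ, m ≠ n →
    ⟪π ((g ^ L) ^ m) (Q π (g ^ L) (π h ξ)), π ((g ^ L) ^ n) (Q π (g ^ L) (π h ξ))⟫_ℂ = 0

end

theorem result (G : Type u) [Group G]
    (hG : {c : ConjClasses G | ∃ g, ConjClasses.mk g = c ∧ ¬ IsOfFinOrder g}.Finite) :
    ∃ L : ℕ, 1 ≤ L ∧
      ∀ (H : Type v) [NormedAddCommGroup H] [InnerProductSpace ℂ H] [CompleteSpace H]
        (π : G →* (H ≃ₗᵢ[ℂ] H)) (ξ : H), IsTrace π ξ →
      Values L π ξ ∧ CommonPowers L π ξ ∧ RationalSubgroups π ξ ∧ Orthogonality L π ξ ∧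
      Eigenvectors L π ξ ∧ Periodic L π ξ := by
  obtain ⟨L, hL, r, hr, hconj⟩ := exists_core (G := G) hG
  refine ⟨L, hL, fun H _ _ _ π ξ hξ => ?_⟩
  have htr : TraceVector π ξ := hξ
  unfold Values CommonPowers RationalSubgroups Orthogonality Eigenvectors Periodic φ Q
  -- the values, for all translates
  have val : ∀ g : G, ¬ IsOfFinOrder g → ∀ h : G, ∀ n : ℤ, n ≠ 0 →
      ⟪ξ, π ((g ^ L) ^ n) ξ⟫_ℂ = ((‖P π (g ^ L) (π h ξ)‖ ^ 2 : ℝ) : ℂ) := by
    intro g hg h n hn
    rw [← htr.translate h]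
    exact (htr.translate' h).value hr (hconj g hg) (P_mem π _ _) (sub_P_mem π _ _) (decomp π _ _) n hn
  have orth : ∀ g : G, ¬ IsOfFinOrder g → ∀ h : G, ∀ n : ℤ, n ≠ 0 →
      ⟪π h ξ - P π (g ^ L) (π h ξ), π ((g ^ L) ^ n) (π h ξ - P π (g ^ L) (π h ξ))⟫_ℂ = 0 := by
    intro g hg h n hn
    exact (htr.translate' h).orth hr (hconj g hg) (P_mem π _ _) (sub_P_mem π _ _) (decomp π _ _) n hn
  have val1 : ∀ g : G, ¬ IsOfFinOrder g → ∀ n : ℤ, n ≠ 0 →
      ⟪ξ, π ((g ^ L) ^ n) ξ⟫_ℂ = ((‖P π (g ^ L) ξ‖ ^ 2 : ℝ) : ℂ) := by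
    intro g hg n hn
    have h1 := val g hg 1 n hn
    rw [map_one] at h1
    exact h1
  have hzp : ∀ (g : G) (n : ℤ), (g ^ L) ^ n = (g ^ n) ^ L := by
    intro g n
    rw [← zpow_natCast, ← zpow_natCast, ← zpow_mul, ← zpow_mul, mul_comm]
  have hinf : ∀ g : G, ¬ IsOfFinOrder g → ∀ n : ℤ, n ≠ 0 → ¬ IsOfFinOrder (g ^ n) := by
    intro g hg n hn h
    refine hg ?_
    rcases Int.eq_nat_or_neg n with ⟨k, rfl | rfl⟩
    · rw [zpow_natCast] at h
      exact (isOfFinOrder_pow.1 h).resolve_right (by rintro rfl; exact hn rfl)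
    · rw [zpow_neg, zpow_natCast, isOfFinOrder_inv_iff] at h
      exact (isOfFinOrder_pow.1 h).resolve_right (by rintro rfl; exact hn rfl)
  -- (6)
  have six : ∀ g : G, ¬ IsOfFinOrder g → ∀ n : ℤ, n ≠ 0 → ∀ η ∈ cyclicSpace π ξ, π ((g ^ L) ^ n) η = η →
      π (g ^ L) η = η := by
    intro g hg n hn η hη hfix
    have hle : fixed (π (g ^ L)) ≤ fixed (π ((g ^ L) ^ n)) := by
      rw [map_zpow]
      exact fixed_le_fixed_zpow _ _
    have hPP : ∀ h : G, P π (g ^ L) (π h ξ) = P π ((g ^ L) ^ n) (π h ξ) := by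
      intro h
      have e1 := val g hg h n hn
      have e2 := val (g ^ n) (hinf g hg n hn) h 1 one_ne_zero
      rw [← hzp, zpow_one] at e2
      rw [e1] at e2
      have e3 : ‖P π (g ^ L) (π h ξ)‖ ^ 2 = ‖P π ((g ^ L) ^ n) (π h ξ)‖ ^ 2 := by exact_mod_cast e2
      set p := P π (g ^ L) (π h ξ) with hp
      set q := P π ((g ^ L) ^ n) (π h ξ) with hq
      have h1 : ⟪p, q⟫_ℂ = ⟪p, p⟫_ℂ := by
        have h2 : ⟪p, π h ξ - q⟫_ℂ = 0 :=
          Submodule.inner_right_of_mem_orthogonal (hle (P_mem π _ _)) (sub_P_mem π _ _)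
        have h3 : ⟪p, π h ξ - p⟫_ℂ = 0 :=
          Submodule.inner_right_of_mem_orthogonal (P_mem π _ _) (sub_P_mem π _ _)
        rw [inner_sub_right] at h2 h3
        rw [← sub_eq_zero.1 h2, sub_eq_zero.1 h3]
      have h4 : ‖p - q‖ ^ 2 = 0 := by
        rw [@norm_sub_sq ℂ, h1, inner_self_eq_norm_sq, e3]
        ring
      exact sub_eq_zero.1 (norm_eq_zero.1 (pow_eq_zero_iff (two_ne_zero) |>.1 h4))
    have hall : ∀ x ∈ cyclicSpace π ξ, P π (g ^ L) x = P π ((g ^ L) ^ n) x := by
      have h5 : cyclicSpace π ξ ≤ LinearMap.eqLocus (P π (g ^ L) : H →ₗ[ℂ] H) (P π ((g ^ L) ^ n) : H →ₗ[ℂ] H) := by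
        refine Submodule.topologicalClosure_minimal _ ?_ ?_
        · rw [Submodule.span_le]
          rintro _ ⟨h, rfl⟩
          exact hPP h
        · exact isClosed_eq (P π (g ^ L)).continuous (P π ((g ^ L) ^ n)).continuous
      exact fun x hx => h5 hx
    have h6 : P π ((g ^ L) ^ n) η = η := by
      exact Submodule.starProjection_eq_self_iff.2 hfix
    rw [← hall η hη] at h6
    have h7 := P_mem π (g ^ L) η
    rw [h6] at h7
    exact h7
  have key2 : ∀ g g' : G, ¬ IsOfFinOrder g → (∃ i j : ℤ, i ≠ 0 ∧ j ≠ 0 ∧ g ^ i = g' ^ j) →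
      ¬ IsOfFinOrder g' := by
    rintro g g' hg ⟨i, j, hi, hj, hij⟩ h
    have h1 := hinf g hg i hi
    rw [hij] at h1
    exact h1 h.zpow
  have two : ∀ g g' : G, ¬ IsOfFinOrder g → (∃ i j : ℤ, i ≠ 0 ∧ j ≠ 0 ∧ g ^ i = g' ^ j) →
        ⟪ξ, π (g ^ L) ξ⟫_ℂ = ⟪ξ, π (g' ^ L) ξ⟫_ℂ ∧
        ∀ η ∈ cyclicSpace π ξ, π (g ^ L) η = η ↔ π (g' ^ L) η = η := by
    intro g g' hg hc
    have hg' := key2 g g' hg hc
    obtain ⟨i, j, hi, hj, hij⟩ := hc
    have e : (g ^ L) ^ i = (g' ^ L) ^ j := by rw [hzp, hzp, hij]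
    constructor
    · have h1 := val1 g hg i hi
      have h2 := val1 g hg 1 one_ne_zero
      have h3 := val1 g' hg' j hj
      have h4 := val1 g' hg' 1 one_ne_zero
      rw [zpow_one] at h2 h4
      rw [h2, h4, ← h1, ← h3, e]
    · intro η hη
      have hz : ∀ (a : G) (n : ℤ), π a η = η → π (a ^ n) η = η := by
        intro a n ha
        rw [map_zpow]
        exact fixed_zpow ha n
      constructor
      · intro h
        have h1 := hz (g ^ L) i h
        rw [e] at h1
        exact six g' hg' j hj η hη h1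
      · intro h
        have h1 := hz (g' ^ L) j h
        rw [← e] at h1
        exact six g hg i hi η hη h1
  refine ⟨val1, two, ?_, ?_, ?_, six⟩
  · -- (3)
    intro f hf x y hx hy
    have hroot : ∀ x : Multiplicative ℚ, x ≠ 1 → ∃ x' : Multiplicative ℚ, x' ≠ 1 ∧ x' ^ L = x := by
      intro x hx
      have hL' : (L : ℚ) ≠ 0 := by exact_mod_cast (by omega : L ≠ 0)
      refine ⟨Multiplicative.ofAdd (x.toAdd / L), ?_, ?_⟩
      · intro h
        apply hx
        have h1 : x.toAdd / L = 0 := by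
          have := congrArg Multiplicative.toAdd h
          simpa using this
        rcases div_eq_zero_iff.1 h1 with h2 | h2
        · exact Multiplicative.toAdd.injective (by simpa using h2)
        · exact absurd h2 hL'
      · apply Multiplicative.toAdd.injective
        rw [toAdd_pow, toAdd_ofAdd, nsmul_eq_mul]
        field_simp
    obtain ⟨x', hx', rfl⟩ := hroot x hx
    obtain ⟨y', hy', rfl⟩ := hroot y hy
    have hfin : ¬ IsOfFinOrder (f x') := by
      intro h
      obtain ⟨n, hn, h1⟩ := isOfFinOrder_iff_pow_eq_one.1 h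
      rw [← map_pow] at h1
      have h2 : x' ^ n = 1 := hf (by rw [h1, map_one])
      have h3 : (n : ℚ) * x'.toAdd = 0 := by
        have := congrArg Multiplicative.toAdd h2
        simpa [toAdd_pow, nsmul_eq_mul] using this
      rcases mul_eq_zero.1 h3 with h4 | h4
      · exact absurd (by exact_mod_cast h4 : n = 0) (by omega)
      · exact hx' (Multiplicative.toAdd.injective (by simpa using h4))
    rw [map_pow f, map_pow f]
    refine (two (f x') (f y') hfin ?_).1
    set a : ℚ := x'.toAdd with ha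
    set b : ℚ := y'.toAdd with hb
    have ha0 : a ≠ 0 := fun h => hx' (Multiplicative.toAdd.injective (by simpa [ha] using h))
    have hb0 : b ≠ 0 := fun h => hy' (Multiplicative.toAdd.injective (by simpa [hb] using h))
    refine ⟨b.num * a.den, a.num * b.den, mul_ne_zero (Rat.num_ne_zero.2 hb0) (by exact_mod_cast a.den_nz),
      mul_ne_zero (Rat.num_ne_zero.2 ha0) (by exact_mod_cast b.den_nz), ?_⟩
    rw [← map_zpow, ← map_zpow]
    congr 1
    apply Multiplicative.toAdd.injective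
    rw [toAdd_zpow, toAdd_zpow, ← ha, ← hb, zsmul_eq_mul, zsmul_eq_mul]
    push_cast
    have h5 : (a.den : ℚ) * a = a.num := by
      rw [mul_comm]
      exact Rat.mul_den_eq_num a
    have h6 : (b.den : ℚ) * b = b.num := by
      rw [mul_comm]
      exact Rat.mul_den_eq_num b
    calc (b.num : ℚ) * a.den * a = b.num * (a.den * a) := by ring
      _ = a.num * (b.den * b) := by rw [h5, h6]; ring
      _ = a.num * b.den * b := by ring
  · -- (4)
    intro g hg h m n hmn
    rw [inner_rep, ← rep_mul, ← zpow_neg, ← zpow_add]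
    exact orth g hg h (-m + n) (by omega)
  · -- (5)
    intro g hg η hη z hz
    by_contra hcon
    push Not at hcon
    obtain ⟨hz1, hη0⟩ := hcon
    apply hη0
    have hnz : ‖z‖ = 1 := by
      have h1 := (π (g ^ L)).norm_map η
      rw [hz, norm_smul] at h1
      have h2 : ‖η‖ ≠ 0 := norm_ne_zero_iff.2 hη0
      exact mul_right_cancel₀ h2 (by rw [h1, one_mul])
    refine eq_zero_of_orth hη fun h => ?_
    rw [decomp π (g ^ L) (π h ξ), inner_add_right]
    have hpow : ∀ n : ℕ, π ((g ^ L) ^ (n : ℤ)) η = z ^ n • η := by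
      intro n
      induction n with
      | zero => simp
      | succ n ih =>
        push_cast
        rw [zpow_add, zpow_one, rep_mul, hz, map_smul, ih, smul_smul, pow_succ']
    have hA : ⟪η, P π (g ^ L) (π h ξ)⟫_ℂ = 0 := by
      set p := P π (g ^ L) (π h ξ) with hp
      have h1 : ⟪π (g ^ L) η, π (g ^ L) p⟫_ℂ = ⟪η, p⟫_ℂ := (π (g ^ L)).inner_map_map η p
      have h2 : π (g ^ L) p = p := P_mem π (g ^ L) (π h ξ)
      rw [hz, h2, inner_smul_left] at h1
      have h3 : (starRingEnd ℂ z - 1) * ⟪η, p⟫_ℂ = 0 := by rw [sub_mul, one_mul, h1, sub_self]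
      rcases mul_eq_zero.1 h3 with h4 | h4
      · exfalso
        apply hz1
        have h5 := congrArg (starRingEnd ℂ) (sub_eq_zero.1 h4)
        simpa using h5
      · exact h4
    have hB : ⟪η, π h ξ - P π (g ^ L) (π h ξ)⟫_ℂ = 0 := by
      set w := π h ξ - P π (g ^ L) (π h ξ) with hw
      have horth : ∀ n : ℤ, n ≠ 0 → ⟪w, π ((g ^ L) ^ n) w⟫_ℂ = 0 := fun n hn => orth g hg h n hn
      let x : ℕ → H := fun n => (starRingEnd ℂ z) ^ n • π ((g ^ L) ^ (n : ℤ)) w
      have hx : ∀ n, ‖x n‖ ≤ ‖w‖ := by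
        intro n
        show ‖(starRingEnd ℂ z) ^ n • π ((g ^ L) ^ (n : ℤ)) w‖ ≤ ‖w‖
        rw [norm_smul, norm_pow, RCLike.norm_conj, hnz, one_pow, one_mul, (π _).norm_map]
      have h1 := vdC hx (fun k hk => by
        have h2 : ∀ n, ⟪x n, x (n + k)⟫_ℂ = 0 := by
          intro n
          show ⟪(starRingEnd ℂ z) ^ n • π ((g ^ L) ^ (n : ℤ)) w,
            (starRingEnd ℂ z) ^ (n + k) • π ((g ^ L) ^ ((n + k : ℕ) : ℤ)) w⟫_ℂ = 0
          rw [inner_smul_left, inner_smul_right, inner_rep, ← rep_mul, ← zpow_neg, ← zpow_add,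
            horth _ (by push_cast; omega), mul_zero, mul_zero]
        have h3 : (fun n => ⟪x n, x (n + k)⟫_ℂ) = fun _ => 0 := funext h2
        rw [h3, LIM_const]) η
      have h4 : ∀ n, ⟪η, x n⟫_ℂ = ⟪η, w⟫_ℂ := by
        intro n
        show ⟪η, (starRingEnd ℂ z) ^ n • π ((g ^ L) ^ (n : ℤ)) w⟫_ℂ = ⟪η, w⟫_ℂ
        have h5 := (π ((g ^ L) ^ (n : ℤ))).inner_map_map η w
        rw [hpow n, inner_smul_left, map_pow] at h5
        rw [inner_smul_right, h5]
      have h6 : (fun n => ⟪η, x n⟫_ℂ) = fun _ => ⟪η, w⟫_ℂ := funext h4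
      rw [h6, LIM_const] at h1
      exact h1
    rw [hA, hB, add_zero]

end Pool.Agent.Results.MP_65b575_al.Characters
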